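import Pool.Agent.R713.Sl2b
import Pool.Agent.R713.Kraw
import Pool.Agent.R713.Explicit

/-!
# MP_44ae8d_al: a Leonard triple (dimension three) which does not come from the equitable basis of
`sl₂`
-/

set_option autoImplicit false
set_option linter.unusedTactic false
set_option linter.unreachableTactic false

namespace Pool.Agent.Results.MP_44ae8d_al.TripleNotSl2

open Pool.Agent.R713 Module Matrix

section

variable (K : Type*) [Field K]

/-- `e + f` on the three dimensional irreducible module -/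
def MA : Matrix (Fin 3) (Fin 3) K := !![0, 2, 0; 1, 0, 1; 0, 2, 0]

/-- `h` on the three dimensional irreducible module -/
def MB : Matrix (Fin 3) (Fin 3) K := !![2, 0, 0; 0, 0, 0; 0, 0, -2]

/-- the third map `(A B + 4 B A) / 2` -/
def MC : Matrix (Fin 3) (Fin 3) K := !![0, 8, 0; 1, 0, -1; 0, -8, 0]

def PA : Matrix (Fin 3) (Fin 3) K := !![1, 1, 1; 1, 0, -1; 1, -1, 1]
def QA : Matrix (Fin 3) (Fin 3) K := !![1/4, 1/2, 1/4; 1/2, 0, -(1/2); 1/4, -(1/2), 1/4]
def PC : Matrix (Fin 3) (Fin 3) K := !![2, 1, -2; 1, 0, 1; -2, 1, 2]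
def QC : Matrix (Fin 3) (Fin 3) K := !![1/8, 1/2, -(1/8); 1/2, 0, 1/2; -(1/8), 1/2, 1/8]

end

section

variable {K : Type*} [Field K] [CharZero K]

theorem hPA : PA K * QA K = 1 := by
  ext i j
  fin_cases i <;> fin_cases j <;>
    simp [PA, QA, Matrix.mul_apply, Fin.sum_univ_three] <;> norm_num

theorem hPC : PC K * QC K = 1 := by
  ext i j
  fin_cases i <;> fin_cases j <;>
    simp [PC, QC, Matrix.mul_apply, Fin.sum_univ_three] <;> norm_num

theorem diagA : QA K * MA K * PA K = Matrix.diagonal ![2, 0, -2] := by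
  ext i j
  fin_cases i <;> fin_cases j <;>
    simp [PA, QA, MA, Matrix.mul_apply, Fin.sum_univ_three] <;> norm_num

theorem diagB : (1 : Matrix (Fin 3) (Fin 3) K) * MB K * 1 = Matrix.diagonal ![2, 0, -2] := by
  rw [one_mul, mul_one]
  ext i j
  fin_cases i <;> fin_cases j <;> simp [MB]

theorem diagC : QC K * MC K * PC K = Matrix.diagonal ![4, 0, -4] := by
  ext i j
  fin_cases i <;> fin_cases j <;>
    simp [PC, QC, MC, Matrix.mul_apply, Fin.sum_univ_three] <;> norm_num

theorem triAB : IrrTridiag (QA K * MB K * PA K) := by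
  intro i j
  fin_cases i <;> fin_cases j <;>
    simp [PA, QA, MB, Matrix.mul_apply, Fin.sum_univ_three] <;> norm_num

theorem triAC : IrrTridiag (QA K * MC K * PA K) := by
  intro i j
  fin_cases i <;> fin_cases j <;>
    simp [PA, QA, MC, Matrix.mul_apply, Fin.sum_univ_three] <;> norm_num

theorem triBA : IrrTridiag ((1 : Matrix (Fin 3) (Fin 3) K) * MA K * 1) := by
  rw [one_mul, mul_one]
  intro i j
  fin_cases i <;> fin_cases j <;> simp [MA]

theorem triBC : IrrTridiag ((1 : Matrix (Fin 3) (Fin 3) K) * MC K * 1) := by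
  rw [one_mul, mul_one]
  intro i j
  fin_cases i <;> fin_cases j <;> simp [MC]

theorem triCA : IrrTridiag (QC K * MA K * PC K) := by
  intro i j
  fin_cases i <;> fin_cases j <;>
    simp [PC, QC, MA, Matrix.mul_apply, Fin.sum_univ_three] <;> norm_num

theorem triCB : IrrTridiag (QC K * MB K * PC K) := by
  intro i j
  fin_cases i <;> fin_cases j <;>
    simp [PC, QC, MB, Matrix.mul_apply, Fin.sum_univ_three] <;> norm_num

theorem triple : LeonardTriple (Matrix.toLin' (MA K)) (Matrix.toLin' (MB K))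
    (Matrix.toLin' (MC K)) :=
  ⟨DiagTridiag₂.of_matrix (by norm_num) _ _ _ (PA K) (QA K) hPA
      (by rw [diagA]; exact Matrix.isDiag_diagonal _) triAB triAC,
    DiagTridiag₂.of_matrix (by norm_num) _ _ _ 1 1 (by rw [mul_one])
      (by rw [diagB]; exact Matrix.isDiag_diagonal _) triBA triBC,
    DiagTridiag₂.of_matrix (by norm_num) _ _ _ (PC K) (QC K) hPC
      (by rw [diagC]; exact Matrix.isDiag_diagonal _) triCA triCB⟩

theorem sys : LeonardSystem 2 (Matrix.toLin' (MA K)) (Matrix.toLin' (MB K)) ![2, 0, -2] ![2, 0, -2]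
    (projB (colBasis (PA K) (QA K) hPA)) (projB (colBasis 1 1 (mul_one _))) := by
  have h := LeonardSystem.of_bases (colBasis (PA K) (QA K) hPA) (colBasis 1 1 (mul_one _))
    (Matrix.toLin' (MA K)) (Matrix.toLin' (MB K))
    (by rw [toMatrix_colBasis, diagA]; exact Matrix.isDiag_diagonal _)
    (by rw [toMatrix_colBasis]; exact triAB)
    (by rw [toMatrix_colBasis, diagB]; exact Matrix.isDiag_diagonal _)
    (by rw [toMatrix_colBasis]; exact triBA)
  have e1 : (fun i => LinearMap.toMatrix (colBasis (PA K) (QA K) hPA) (colBasis (PA K) (QA K) hPA)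
      (Matrix.toLin' (MA K)) i i) = ![2, 0, -2] := by
    funext i
    rw [toMatrix_colBasis, diagA, Matrix.diagonal_apply_eq]
  have e2 : (fun i => LinearMap.toMatrix (colBasis (1 : Matrix (Fin 3) (Fin 3) K) 1 (mul_one _))
      (colBasis 1 1 (mul_one _)) (Matrix.toLin' (MB K)) i i) = ![2, 0, -2] := by
    funext i
    rw [toMatrix_colBasis, diagB, Matrix.diagonal_apply_eq]
  rw [e1, e2] at h
  exact h

theorem relC (v : Fin 3 → K) : (2 : K) • Matrix.toLin' (MC K) v =
    Matrix.toLin' (MA K) (Matrix.toLin' (MB K) v) +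
      (4 : K) • Matrix.toLin' (MB K) (Matrix.toLin' (MA K) v) := by
  ext i
  fin_cases i <;>
    simp [MA, MB, MC, Matrix.toLin'_apply, dotProduct, Fin.sum_univ_three, Matrix.vecHead,
      Matrix.vecTail] <;> ring

/-- vectors from the rows of a matrix -/
def rows (F : Matrix (Fin 3) (Fin 3) K) (i : ℕ) : Fin 3 → K := F (Fin.ofNat 3 i)

def seq (v : Fin 3 → K) (i : ℕ) : K := v (Fin.ofNat 3 i)

theorem bidiag_of (F : Matrix (Fin 3) (Fin 3) K) (a b : Fin 3 → K) (r : K)
    (h0 : F 0 ≠ 0) (h2 : F 2 ≠ 0)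
    (hA0 : MA K *ᵥ F 0 = a 0 • F 0 + F 1) (hA1 : MA K *ᵥ F 1 = a 1 • F 1 + F 2)
    (hA2 : MA K *ᵥ F 2 = a 2 • F 2) (hB0 : MB K *ᵥ F 0 = b 0 • F 0)
    (hB1 : MB K *ᵥ F 1 = b 1 • F 1 + r • F 0) (hB2 : MB K *ᵥ F 2 = b 2 • F 2 + r • F 1) :
    Bidiag 2 (Matrix.toLin' (MA K)) (Matrix.toLin' (MB K)) (rows F) (seq a) (seq b) (fun _ => 1)
      (fun _ => r) where
  ne0 := h0
  ned := h2
  A_lt i hi := by
    rw [Matrix.toLin'_apply, one_smul]
    interval_cases i
    · exact hA0
    · exact hA1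
  A_last := by
    rw [Matrix.toLin'_apply]
    exact hA2
  B_zero := by
    rw [Matrix.toLin'_apply]
    exact hB0
  B_succ i hi := by
    rw [Matrix.toLin'_apply]
    interval_cases i
    · exact hB1
    · exact hB2

def F1 : Matrix (Fin 3) (Fin 3) K := !![1, 0, 0; -2, 1, 0; 2, -2, 2]
def F2 : Matrix (Fin 3) (Fin 3) K := !![1, 0, 0; 2, 1, 0; 2, 2, 2]
def F3 : Matrix (Fin 3) (Fin 3) K := !![0, 0, 1; 0, 1, -2; 2, -2, 2]
def F4 : Matrix (Fin 3) (Fin 3) K := !![0, 0, 1; 0, 1, 2; 2, 2, 2]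

def up : Fin 3 → K := ![2, 0, -2]
def dn : Fin 3 → K := ![-2, 0, 2]

theorem g1 : Bidiag 2 (Matrix.toLin' (MA K)) (Matrix.toLin' (MB K)) (rows F1) (seq up) (seq up)
    (fun _ => 1) (fun _ => -4) := by
  refine bidiag_of F1 up up (-4) ?_ ?_ ?_ ?_ ?_ ?_ ?_ ?_
  · intro h
    have := congrFun h 0
    simp [F1] at this
  · intro h
    have := congrFun h 0
    simp [F1] at this
  all_goals
    ext j
    fin_cases j <;> simp [F1, MA, MB, up, Matrix.mulVec, dotProduct, Fin.sum_univ_three] <;> norm_num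

theorem g2 : Bidiag 2 (Matrix.toLin' (MA K)) (Matrix.toLin' (MB K)) (rows F2) (seq dn) (seq up)
    (fun _ => 1) (fun _ => 4) := by
  refine bidiag_of F2 dn up 4 ?_ ?_ ?_ ?_ ?_ ?_ ?_ ?_
  · intro h
    have := congrFun h 0
    simp [F2] at this
  · intro h
    have := congrFun h 0
    simp [F2] at this
  all_goals
    ext j
    fin_cases j <;>
      simp [F2, MA, MB, up, dn, Matrix.mulVec, dotProduct, Fin.sum_univ_three] <;> norm_num

theorem g3 : Bidiag 2 (Matrix.toLin' (MA K)) (Matrix.toLin' (MB K)) (rows F3) (seq up) (seq dn)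
    (fun _ => 1) (fun _ => 4) := by
  refine bidiag_of F3 up dn 4 ?_ ?_ ?_ ?_ ?_ ?_ ?_ ?_
  · intro h
    have := congrFun h 2
    simp [F3] at this
  · intro h
    have := congrFun h 0
    simp [F3] at this
  all_goals
    ext j
    fin_cases j <;>
      simp [F3, MA, MB, up, dn, Matrix.mulVec, dotProduct, Fin.sum_univ_three] <;> norm_num

theorem g4 : Bidiag 2 (Matrix.toLin' (MA K)) (Matrix.toLin' (MB K)) (rows F4) (seq dn) (seq dn)
    (fun _ => 1) (fun _ => -4) := by
  refine bidiag_of F4 dn dn (-4) ?_ ?_ ?_ ?_ ?_ ?_ ?_ ?_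
  · intro h
    have := congrFun h 2
    simp [F4] at this
  · intro h
    have := congrFun h 0
    simp [F4] at this
  all_goals
    ext j
    fin_cases j <;>
      simp [F4, MA, MB, dn, Matrix.mulVec, dotProduct, Fin.sum_univ_three] <;> norm_num

theorem projCol (P Q : Matrix (Fin 3) (Fin 3) K) (h : P * Q = 1) (i : Fin 3) (t : K)
    (v : Fin 3 → K) (hv : v = t • fun k => P k i) : projB (colBasis P Q h) i v = v := by
  rw [hv, ← colBasis_apply P Q h i]
  exact projB_smul _ _ _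

/-- the scalar contradiction; `s, s'` are the signs of the orders of the eigenvalues of `B, A` -/
theorem scalars (s s' l r c₀ c₁ c₂ c₃ : K) (hs : s ^ 2 = 1) (hs' : s' ^ 2 = 1)
    (hlr : l * r = -4 * s * s')
    (e1 : r * s' = -8 * c₁) (e2 : -4 * s * l = c₂ + 2 * c₃) (e3 : s * l = c₂)
    (e4 : -4 * s' * r = -8 * c₁ - 16 * c₃)
    (e5 : (20 * s * s' + 4 * (l * r)) / 2 = c₀ - 2 * c₁ - 2 * c₂ - 4 * c₃)
    (e6 : (20 * s * s' + l * r) / 2 = c₀ + 2 * c₁ + 2 * c₂ + 4 * c₃) : False := by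
  have k1 : s' * r = -8 * s * l := by
    linear_combination (-1 / 5 : K) * (e4 - e1 + 8 * e2 - 8 * e3)
  have k2 : 2 * l ^ 2 = 1 := by
    linear_combination (s / 4) * (l * k1 - s' * hlr + 4 * s * hs') - (2 * l ^ 2 - 1) * hs
  have k3 : l * r = 8 * s * l := by
    linear_combination (2 / 3 : K) * ((e5 - e6) - (1 / 2) * e1 + 4 * e2 + (1 / 2) * k1)
  have k4 : s' + 2 * l = 0 := by
    linear_combination (s / 4) * (hlr - k3) - (s' + 2 * l) * hs
  have k5 : (1 : K) = 0 := by
    linear_combination -((s' - 2 * l) * k4 + 2 * k2 - hs')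
  exact one_ne_zero k5

/-- the equations for the coefficients -/
theorem coefficients {e : ℕ → Fin 3 → K} {x z : Module.End K (Fin 3 → K)}
    (s s' a₁ b₂ c₀ c₁ c₂ c₃ : K) (hs : s ^ 2 = 1) (hs' : s' ^ 2 = 1)
    (hb : Bidiag 2 (Matrix.toLin' (MA K)) (Matrix.toLin' (MB K)) e (seq ![2 * s', 0, -2 * s'])
      (seq ![2 * s, 0, -2 * s]) (fun _ => a₁) (fun _ => -8 * b₂))
    (hφ : a₁ * (-8 * b₂) = -4 * s * s')
    (hli : ∀ t0 t1 t2 : K, t0 • e 0 + t1 • e 1 + t2 • e 2 = 0 → t0 = 0 ∧ t1 = 0 ∧ t2 = 0)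
    (x0 : x (e 0) = e 1 - (2 : K) • e 0) (x1 : x (e 1) = e 2) (x2 : x (e 2) = (2 : K) • e 2)
    (z0 : z (e 0) = -((2 : K) • e 0)) (z1 : z (e 1) = (-8 : K) • e 0)
    (z2 : z (e 2) = (-8 : K) • e 1 + (2 : K) • e 2)
    (hC : ∀ v, Matrix.toLin' (MC K) v = c₀ • v + c₁ • z v + c₂ • x v + c₃ • z (x v)) : False := by
  have A0 := hb.A_lt 0 (by norm_num)
  have A1 := hb.A_lt 1 (by norm_num)
  have A2 := hb.A_last
  have B0 := hb.B_zero
  have B1 := hb.B_succ 0 (by norm_num)
  have B2 := hb.B_succ 1 (by norm_num)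
  have q0 : ∀ t : K, seq ![2 * t, 0, -2 * t] 0 = 2 * t := fun t => rfl
  have q1 : ∀ t : K, seq ![2 * t, 0, -2 * t] 1 = 0 := fun t => rfl
  have q2 : ∀ t : K, seq ![2 * t, 0, -2 * t] 2 = -2 * t := fun t => rfl
  simp only [zero_add, Nat.reduceAdd, q0, q1, q2] at A0 A1 A2 B0 B1 B2
  have C0 := relC (e 0)
  have C1 := relC (e 1)
  have C2 := relC (e 2)
  rw [hC, x0, z0, map_sub, map_smul, z0, z1, B0, A0, map_add, map_smul, map_smul, map_smul, B0, B1,
    A0] at C0
  rw [hC, x1, z1, z2, B1, A1, map_add, map_smul, map_smul, map_add, map_smul, map_smul, B2, B1,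
    A1, A0] at C1
  rw [hC, x2, map_smul, z2, B2, A2, map_add, map_smul, map_smul, map_smul, B2, A2, A1] at C2
  have D0 := hli (2 * (c₀ - 2 * c₁ - 2 * c₂ - 4 * c₃) - (20 * s * s' + 4 * (a₁ * (-8 * b₂))))
    (2 * c₂ - 2 * s * a₁) 0 (by
      rw [← sub_eq_zero] at C0
      rw [← C0]
      module)
  have D1 := hli (-16 * c₁ - (-8 * b₂) * (2 * s')) (2 * (c₀ - 8 * c₃) - 5 * (a₁ * (-8 * b₂)))
    (2 * (c₂ + 2 * c₃) + 8 * s * a₁) (by
      rw [← sub_eq_zero] at C1
      rw [← C1]
      module)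
  have D2 := hli 0 (2 * (-8 * c₁ - 16 * c₃) + 8 * s' * (-8 * b₂))
    (2 * (c₀ + 2 * c₁ + 2 * c₂ + 4 * c₃) - (20 * s * s' + a₁ * (-8 * b₂))) (by
      rw [← sub_eq_zero] at C2
      rw [← C2]
      module)
  refine scalars s s' a₁ (-8 * b₂) c₀ c₁ c₂ c₃ hs hs' hφ ?_ ?_ ?_ ?_ ?_ ?_
  · linear_combination (-1 / 2 : K) * D1.1
  · linear_combination (-1 / 2 : K) * D1.2.2
  · linear_combination (-1 / 2 : K) * D0.2.1
  · linear_combination (-1 / 2 : K) * D2.2.1
  · linear_combination (-1 / 2 : K) * D0.1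
  · linear_combination (-1 / 2 : K) * D2.2.2

theorem no_module (x y z : Module.End K (Fin 3 → K)) (hE : EquitableSl2 x y z)
    (hI : Irr3 x y z) : ¬ (Comb x y (Matrix.toLin' (MA K)) ∧ Comb y z (Matrix.toLin' (MB K)) ∧
      Comb z x (Matrix.toLin' (MC K))) := by
  rintro ⟨⟨a₀, a₁, a₂, a₃, hA⟩, ⟨b₀, b₁, b₂, b₃, hB⟩, ⟨c₀, c₁, c₂, c₃, hC⟩⟩
  have h := sys (K := K)
  obtain ⟨e, hb, hne, he3, hy, hx, hz0, hz⟩ := sl2_bidiag' hE hI h a₀ a₁ a₂ a₃ b₀ b₁ b₂ b₃ hA hB
  have hCv : ∀ v, Matrix.toLin' (MC K) v = c₀ • v + c₁ • z v + c₂ • x v + c₃ • z (x v) := by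
    intro v
    rw [hC]
    rfl
  have x0 : x (e 0) = e 1 - (2 : K) • e 0 := by
    rw [hx 0]
    norm_num
  have x1 : x (e 1) = e 2 := by
    rw [hx 1]
    norm_num
  have x2 : x (e 2) = (2 : K) • e 2 := by
    rw [hx 2, he3]
    module
  have z0 : z (e 0) = -((2 : K) • e 0) := by
    rw [hz0]
    norm_num
  have z1 : z (e 1) = (-8 : K) • e 0 := by
    have := hz 0
    rw [zero_add] at this
    rw [this]
    norm_num
  have z2 : z (e 2) = (-8 : K) • e 1 + (2 : K) • e 2 := by
    rw [show (2 : ℕ) = 1 + 1 from rfl, hz 1]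
    norm_num
  have hli : ∀ t0 t1 t2 : K, t0 • e 0 + t1 • e 1 + t2 • e 2 = 0 → t0 = 0 ∧ t1 = 0 ∧ t2 = 0 := by
    intro t0 t1 t2 ht
    have hind := Module.End.eigenvectors_linearIndependent' y
      (fun i : Fin 3 => ((2 : ℕ) : K) - 2 * ((i : ℕ) : K)) (fun i j hij => by
        have h1 : ((2 : ℕ) : K) - 2 * ((i : ℕ) : K) = ((2 : ℕ) : K) - 2 * ((j : ℕ) : K) := hij
        have h2 : (2 : K) * ((i : ℕ) : K) = 2 * ((j : ℕ) : K) := by linear_combination -h1
        exact Fin.ext (by exact_mod_cast mul_left_cancel₀ (two_ne_zero : (2 : K) ≠ 0) h2))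
      (fun i : Fin 3 => e i)
      (fun i => Module.End.hasEigenvector_iff.2
        ⟨Module.End.mem_eigenspace_iff.2 (hy i), hne i (by omega)⟩)
    rw [Fintype.linearIndependent_iff] at hind
    have := hind ![t0, t1, t2] (by
      rw [Fin.sum_univ_three]
      simpa using ht)
    exact ⟨this 0, this 1, this 2⟩
  -- values of the diagonal entries force `a₃ = 0`, `b₃ = 0`
  have red : ∀ (s s' : K), s ^ 2 = 1 → s' ^ 2 = 1 →
      (∀ i : Fin 3, a₀ + (a₂ - a₁) * (((2 : ℕ) : K) - 2 * ((i : ℕ) : K)) -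
        a₃ * (((2 : ℕ) : K) - 2 * ((i : ℕ) : K)) ^ 2 = ![2 * s', 0, -2 * s'] i) →
      (∀ i : Fin 3, b₀ + (b₁ - b₂) * (((2 : ℕ) : K) - 2 * ((i : ℕ) : K)) -
        b₃ * (((2 : ℕ) : K) - 2 * ((i : ℕ) : K)) ^ 2 = ![2 * s, 0, -2 * s] i) →
      (a₁ + a₃ * (((2 : ℕ) : K) - 2 * ((0 : ℕ) : K))) * (-4 * (((0 : ℕ) : K) + 1) *
        (((2 : ℕ) : K) - ((0 : ℕ) : K)) * (b₂ + b₃ * (((2 : ℕ) : K) - 2 * ((0 : ℕ) : K)))) =
          -4 * s * s' → False := by
    intro s s' hs hs' ha hbb p0
    have a0 : a₀ + (a₂ - a₁) * 2 - a₃ * 4 = 2 * s' := by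
      have := ha 0
      norm_num at this
      linear_combination this
    have a1 : a₀ = 0 := by
      have := ha 1
      norm_num at this
      exact this
    have a2 : a₀ - (a₂ - a₁) * 2 - a₃ * 4 = -2 * s' := by
      have := ha 2
      have h3 : (![2 * s', 0, -2 * s'] : Fin 3 → K) 2 = -2 * s' := rfl
      rw [h3] at this
      norm_num at this
      linear_combination this
    have b0 : b₀ + (b₁ - b₂) * 2 - b₃ * 4 = 2 * s := by
      have := hbb 0
      norm_num at this
      linear_combination this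
    have b1 : b₀ = 0 := by
      have := hbb 1
      norm_num at this
      exact this
    have b2 : b₀ - (b₁ - b₂) * 2 - b₃ * 4 = -2 * s := by
      have := hbb 2
      have h3 : (![2 * s, 0, -2 * s] : Fin 3 → K) 2 = -2 * s := rfl
      rw [h3] at this
      norm_num at this
      linear_combination this
    have ha3 : a₃ = 0 := by linear_combination (-1 / 8 : K) * (a0 + a2 - 2 * a1)
    have hb3 : b₃ = 0 := by linear_combination (-1 / 8 : K) * (b0 + b2 - 2 * b1)
    rw [ha3, hb3] at p0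
    push_cast at p0
    have hφ : a₁ * (-8 * b₂) = -4 * s * s' := by linear_combination p0
    refine coefficients s s' a₁ b₂ c₀ c₁ c₂ c₃ hs hs' ?_ hφ hli x0 x1 x2 z0 z1 z2 hCv
    -- the bidiagonal form with the simplified coefficients
    exact
      { ne0 := hb.ne0
        ned := hb.ned
        A_lt := by
          intro i hi
          have h1 := hb.A_lt i hi
          have h2 := ha ⟨i, by omega⟩
          simp only at h2
          rw [h2, ha3, zero_mul, add_zero] at h1
          rw [h1]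
          interval_cases i <;> rfl
        A_last := by
          have h1 := hb.A_last
          have h2 := ha 2
          have h3 : (((2 : Fin 3) : ℕ) : K) = ((2 : ℕ) : K) := rfl
          rw [h3] at h2
          rw [h2] at h1
          exact h1
        B_zero := by
          have h1 := hb.B_zero
          have h2 := hbb 0
          have h3 : (((0 : Fin 3) : ℕ) : K) = ((0 : ℕ) : K) := rfl
          rw [h3] at h2
          rw [h2] at h1
          exact h1
        B_succ := by
          intro i hi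
          have h1 := hb.B_succ i hi
          have h2 := hbb ⟨i + 1, by omega⟩
          simp only at h2
          rw [h2, hb3, zero_mul, add_zero] at h1
          rw [h1]
          interval_cases i
          · show (0 : K) • e 1 + (-4 * (((0 : ℕ) : K) + 1) * (((2 : ℕ) : K) - ((0 : ℕ) : K)) * b₂) • e 0 =
              (0 : K) • e 1 + (-8 * b₂) • e 0
            norm_num
          · show (-2 * s) • e 2 + (-4 * (((1 : ℕ) : K) + 1) * (((2 : ℕ) : K) - ((1 : ℕ) : K)) * b₂) • e 1 =
              (-2 * s) • e 2 + (-8 * b₂) • e 1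
            norm_num }
  have hA1 := h.swap.first hb.rev
  simp only [Nat.sub_zero] at hA1
  have w1 : projB (colBasis (1 : Matrix (Fin 3) (Fin 3) K) 1 (mul_one _)) 0 (rows F1 0) =
      rows F1 0 := projCol 1 1 _ 0 1 _ (by ext j; fin_cases j <;> simp [rows, F1])
  have w2 : projB (colBasis (1 : Matrix (Fin 3) (Fin 3) K) 1 (mul_one _)) 0 (rows F2 0) =
      rows F2 0 := projCol 1 1 _ 0 1 _ (by ext j; fin_cases j <;> simp [rows, F2])
  have w3 : projB (colBasis (1 : Matrix (Fin 3) (Fin 3) K) 1 (mul_one _)) 2 (rows F3 0) =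
      rows F3 0 := projCol 1 1 _ 2 1 _ (by ext j; fin_cases j <;> simp [rows, F3])
  have w4 : projB (colBasis (1 : Matrix (Fin 3) (Fin 3) K) 1 (mul_one _)) 2 (rows F4 0) =
      rows F4 0 := projCol 1 1 _ 2 1 _ (by ext j; fin_cases j <;> simp [rows, F4])
  have v1 : projB (colBasis (PA K) (QA K) hPA) 2 (rows F1 2) = rows F1 2 :=
    projCol _ _ _ 2 2 _ (by ext j; fin_cases j <;> simp [rows, F1, PA])
  have v2 : projB (colBasis (PA K) (QA K) hPA) 0 (rows F2 2) = rows F2 2 :=
    projCol _ _ _ 0 2 _ (by ext j; fin_cases j <;> simp [rows, F2, PA])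
  have v3 : projB (colBasis (PA K) (QA K) hPA) 2 (rows F3 2) = rows F3 2 :=
    projCol _ _ _ 2 2 _ (by ext j; fin_cases j <;> simp [rows, F3, PA])
  have v4 : projB (colBasis (PA K) (QA K) hPA) 0 (rows F4 2) = rows F4 2 :=
    projCol _ _ _ 0 2 _ (by ext j; fin_cases j <;> simp [rows, F4, PA])
  rcases h.first hb with h1 | h1 <;> rcases hA1 with h2 | h2
  · -- `B` in order, `A` reversed
    refine red 1 (-1) (by norm_num) (by norm_num) ?_ ?_ ?_
    · intro i
      rw [(h.revE.shape' hb (by simpa using h2) i i.isLt).2.2]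
      fin_cases i <;> simp [Fin.rev]
    · intro i
      rw [(h.revE.shape hb h1 i i.isLt).2.2]
      fin_cases i <;> simp
    · have := h.revE.products hb g2 h1 (by simpa using h2) w2 (by simpa using v2) 0 (by norm_num)
      rw [this]
      norm_num
  · -- both in order
    refine red 1 1 (by norm_num) (by norm_num) ?_ ?_ ?_
    · intro i
      rw [(h.shape' hb h2 i i.isLt).2.2]
      fin_cases i <;> simp
    · intro i
      rw [(h.shape hb h1 i i.isLt).2.2]
      fin_cases i <;> simp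
    · have := h.products hb g1 h1 h2 w1 v1 0 (by norm_num)
      rw [this]
      norm_num
  · -- both reversed
    refine red (-1) (-1) (by norm_num) (by norm_num) ?_ ?_ ?_
    · intro i
      rw [(h.revE.revEs.shape' hb (by simpa using h2) i i.isLt).2.2]
      fin_cases i <;> simp [Fin.rev]
    · intro i
      rw [(h.revE.revEs.shape hb (by simpa using h1) i i.isLt).2.2]
      fin_cases i <;> simp [Fin.rev]
    · have := h.revE.revEs.products hb g4 (by simpa using h1) (by simpa using h2)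
        (by simpa using w4) (by simpa using v4) 0 (by norm_num)
      rw [this]
      norm_num
  · -- `B` reversed, `A` in order
    refine red (-1) 1 (by norm_num) (by norm_num) ?_ ?_ ?_
    · intro i
      rw [(h.revEs.shape' hb h2 i i.isLt).2.2]
      fin_cases i <;> simp
    · intro i
      rw [(h.revEs.shape hb (by simpa using h1) i i.isLt).2.2]
      fin_cases i <;> simp [Fin.rev]
    · have := h.revEs.products hb g3 (by simpa using h1) h2 (by simpa using w3) v3 0 (by norm_num)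
      rw [this]
      norm_num

theorem result (K : Type*) [Field K] [CharZero K] :
    ∃ A B C : Module.End K (Fin 3 → K), LeonardTriple A B C ∧
      ∀ x y z : Module.End K (Fin 3 → K), EquitableSl2 x y z → Irr3 x y z →
        ¬ (Comb x y A ∧ Comb y z B ∧ Comb z x C) :=
  ⟨_, _, _, triple, no_module⟩

end

end Pool.Agent.Results.MP_44ae8d_al.TripleNotSl2
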